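import Pool.Agent.Helper26.TF.UpQ
import Pool.Agent.Helper26.TE.RegVar

/-!
# Project TF (MP_277c78_nt): the asymptotic formula with an error term
-/

set_option autoImplicit false

namespace Pool.Agent.Helper26.TF

open Finset Filter Topology
open Pool.Agent.Helper16.UB (Admissible M W ll)
open Pool.Agent.Helper26.TD
open Pool.Agent.Helper26.TE

/-- `M_r(N) = (1 + O(log x / √x)) ∑_k π_k(r) x ^ k / k!`, `x = log log N` -/
theorem rate {r : ℕ} (hr : 2 ≤ r) : ∃ C : ℝ, 0 < C ∧ ∃ N₀ : ℕ, ∀ N : ℕ, N₀ ≤ N →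
    |M r N - GG (td r) (ll N)| ≤ C * (Real.log (ll N) / √(ll N)) * GG (td r) (ll N) ∧
    (1 - C * (Real.log (ll N) / √(ll N))) * M r N ≤
      ∑ n ∈ Icc 1 N, td r (ArithmeticFunction.cardFactors n) * (1 / (n : ℝ)) := by
  obtain ⟨Cl, hCl, hl⟩ := low_rate hr
  obtain ⟨Cu, hCu, hu⟩ := up_rate hr
  refine ⟨Cl + Cu, by positivity, ?_⟩
  have hll := Pool.Agent.Helper16.UB.tendsto_ll
  obtain ⟨N₀, h⟩ := eventually_atTop.1 ((hl.and hu).and ((hll.eventually_ge_atTop 3).and
    (hll.eventually (small_h (show (0 : ℝ) < 1 / (Cl + Cu) by positivity)))))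
  refine ⟨N₀, fun N hN => ?_⟩
  obtain ⟨⟨h1, h2⟩, h3, h4⟩ := h N hN
  set x := ll N with hx
  have hxp : 0 < x := by linarith
  set h := Real.log x / √x with hhdef
  have h1x := one_div_le_h h3
  rw [← hhdef] at h1x
  have hh0 : 0 < h := lt_of_lt_of_le (by positivity) h1x
  have hg0 : 0 ≤ GG (td r) x := GG_nonneg (td_nonneg r) hxp.le
  have h5 := h1.trans (lower_exact (by omega) N)
  have hlg : 0 ≤ Cl * h * GG (td r) x := by positivity
  have hug : 0 ≤ Cu * h * GG (td r) x := by positivity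
  have hle : (Cl + Cu) * h ≤ 1 := by
    have := mul_le_mul_of_nonneg_left h4 (show 0 ≤ Cl + Cu by positivity)
    refine this.trans (le_of_eq ?_)
    field_simp
  refine ⟨?_, ?_⟩
  · rw [abs_le]
    constructor <;> nlinarith
  · refine le_trans ?_ h1
    have h6 := mul_le_mul_of_nonneg_left h2 (show 0 ≤ 1 - (Cl + Cu) * h by linarith)
    refine h6.trans ?_
    have h7 : (1 - (Cl + Cu) * h) * ((1 + Cu * h) * GG (td r) x) =
        ((1 - (Cl + Cu) * h) * (1 + Cu * h)) * GG (td r) x := by ring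
    rw [h7]
    apply mul_le_mul_of_nonneg_right _ hg0
    have h8 : 0 ≤ (Cl + Cu) * h * (Cu * h) := by positivity
    nlinarith

end Pool.Agent.Helper26.TF
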