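import Pool.Agent.Helper26.TD.Asym

/-!
# Project TF (MP_277c78_nt), with an error term: the parameters
-/

set_option autoImplicit false

namespace Pool.Agent.Helper26.TF

open Finset Filter Topology
open Pool.Agent.Helper16.UB (Admissible M W ll)
open Pool.Agent.Helper26.TD

/-- the parameters for `N`, with `x = log log N`, `G = log N` -/
def Par (B : ℝ) (N z y K : ℕ) (x G : ℝ) : Prop :=
  x ≤ z ∧ 2 ≤ z ∧ z ≤ y ∧ 2 ≤ y ∧ y ≤ N / y ^ K ∧
  x - B * Real.log x ≤ LL (PP z y) ∧ LL (PP z y) ≤ x ∧ x / 2 ≤ LL (PP z y) ∧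
  (K : ℝ) * Real.log y ≤ 4 * G / x ^ 2 ∧
  W z + (W (N / y ^ K) - W y) + 1 ≤ B * Real.log x ∧
  ⌊2 * LL (PP z y)⌋₊ ≤ K ∧
  Real.exp (LL (PP z y)) / 2 ^ K ≤ 1 / x

theorem params : ∃ B : ℝ, 0 < B ∧ ∀ᶠ N : ℕ in atTop, 3 ≤ ll N ∧ 3 ≤ N ∧
    ∃ z y K : ℕ, Par B N z y K (ll N) (Real.log N) := by
  obtain ⟨C0, hC0⟩ := Pool.Agent.Helper16.UB.exists_W_le
  have hlog2 : 0 < Real.log 2 := Real.log_pos one_lt_two
  have hlog2' := Real.log_two_gt_d9
  have hlog2'' := Real.log_two_lt_d9
  refine ⟨4 + (2 * Real.log 2 + 2 * |C0| + 2), by positivity, ?_⟩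
  set A := 2 * Real.log 2 + 2 * |C0| + 2 with hA
  have hA0 : 0 < A := by positivity
  have hC0a := le_abs_self C0
  have hC0b := abs_nonneg C0
  have E3 : ∀ᶠ x : ℝ in atTop, (4 + A) * Real.log x ≤ x / 2 := by
    have h1 : ∀ᶠ x : ℝ in atTop, ‖Real.log x‖ ≤ (1 / (2 * (4 + A))) * ‖x‖ := by
      have := Real.isLittleO_log_id_atTop.def (show (0 : ℝ) < 1 / (2 * (4 + A)) by positivity)
      simpa using this
    filter_upwards [h1, eventually_ge_atTop 1] with x hx1 hx2
    rw [Real.norm_of_nonneg (Real.log_nonneg hx2), Real.norm_of_nonneg (by linarith)] at hx1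
    have := mul_le_mul_of_nonneg_left hx1 (show 0 ≤ 4 + A by positivity)
    refine this.trans (le_of_eq ?_)
    field_simp
  have E3' : ∀ᶠ x : ℝ in atTop, |C0| ≤ Real.log x ∧ 1 ≤ Real.log x :=
    (Real.tendsto_log_atTop.eventually_ge_atTop _).and
      (Real.tendsto_log_atTop.eventually_ge_atTop _)
  have E4 : ∀ᶠ x : ℝ in atTop, 2 * x ^ 4 ≤ Real.exp x := by
    have h := Real.tendsto_pow_mul_exp_neg_atTop_nhds_zero 4
    have h2 := h.eventually_lt_const (show (0 : ℝ) < 1 / 2 by norm_num)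
    filter_upwards [h2] with x hx
    rw [Real.exp_neg, ← div_eq_mul_inv, div_lt_div_iff₀ (Real.exp_pos x) (by norm_num)] at hx
    linarith
  have E6 : ∀ᶠ x : ℝ in atTop, 2 * Real.exp (-(x)) * x ≤ 1 := by
    have h := Real.tendsto_pow_mul_exp_neg_atTop_nhds_zero 1
    have h2 := h.eventually_lt_const (show (0 : ℝ) < 1 / 2 by norm_num)
    filter_upwards [h2] with x hx
    rw [pow_one] at hx
    linarith
  have hll := Pool.Agent.Helper16.UB.tendsto_ll
  filter_upwards [hll.eventually E3, hll.eventually E3', hll.eventually E4, hll.eventually E6,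
    hll.eventually_ge_atTop 3, eventually_ge_atTop 3] with N f3 f3' f4 f6 hx3 hN3
  refine ⟨hx3, hN3, ?_⟩
  have hxdef : ll N = Real.log (Real.log N) := rfl
  set x := ll N with hx
  have hNR : (3 : ℝ) ≤ N := by exact_mod_cast hN3
  have hNpos : (0 : ℝ) < N := by linarith
  set G := Real.log N with hG
  have hGp : 0 < G := Real.log_pos (by linarith)
  have hGx : Real.exp x = G := by rw [hxdef, Real.exp_log hGp]
  have hexpG : Real.exp G = N := by rw [hG, Real.exp_log hNpos]
  have hxp : 0 < x := by linarith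
  obtain ⟨hlx0, hlx1⟩ := f3'
  -- the parameters
  set X := G / x ^ 3 with hX
  have hXB : 2 * x ≤ X := by
    rw [hX, le_div_iff₀ (by positivity), ← hGx]
    refine le_trans (le_of_eq ?_) f4
    ring
  have hX2 : 2 * Real.log 2 ≤ X := by linarith
  have hXp : 0 < X := by linarith
  set z := ⌈x⌉₊ with hzdef
  set y := ⌊Real.exp X⌋₊ with hy
  set K := ⌊4 * x⌋₊ with hK
  have hxz : x ≤ z := Nat.le_ceil x
  have hzx : (z : ℝ) < x + 1 := Nat.ceil_lt_add_one hxp.le
  have hz2 : 2 ≤ z := by
    have : (2 : ℝ) < z := by linarith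
    exact_mod_cast this.le
  have hexpX : 2 * x + 1 ≤ Real.exp X := by
    have := Real.add_one_le_exp X
    linarith
  have hyX : (y : ℝ) ≤ Real.exp X := Nat.floor_le (Real.exp_pos _).le
  have hyX' : Real.exp X < y + 1 := Nat.lt_floor_add_one _
  have hy3 : (2 : ℝ) < y := by linarith
  have hy2 : 2 ≤ y := by exact_mod_cast hy3.le
  have hzy : z ≤ y := by
    have : (z : ℝ) < y := by linarith
    exact_mod_cast this.le
  have hypos : (0 : ℝ) < y := by linarith
  have hKx : (K : ℝ) ≤ 4 * x := Nat.floor_le (by linarith)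
  have hKx' : 4 * x < K + 1 := Nat.lt_floor_add_one _
  have hKX : (K : ℝ) * X ≤ 4 * G / x ^ 2 := by
    have h : (K : ℝ) * X ≤ 4 * x * X := mul_le_mul_of_nonneg_right hKx hXp.le
    have e1 : 4 * x * X = 4 * G / x ^ 2 := by
      rw [hX]
      field_simp
    linarith
  have hKXG : ((K : ℝ) + 1) * X ≤ G := by
    have h : ((K : ℝ) + 1) * X ≤ 5 * x * X := mul_le_mul_of_nonneg_right (by linarith) hXp.le
    have e1 : 5 * x * X = 5 * G / x ^ 2 := by
      rw [hX]
      field_simp
    rw [e1] at h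
    refine h.trans ?_
    rw [div_le_iff₀ (by positivity)]
    have h4x : (5 : ℝ) ≤ x ^ 2 := by nlinarith
    have := mul_le_mul_of_nonneg_left h4x hGp.le
    linarith
  have hyK1 : y * y ^ K ≤ N := by
    have : ((y * y ^ K : ℕ) : ℝ) ≤ N := by
      rw [← hexpG, ← pow_succ', Nat.cast_pow]
      calc (y : ℝ) ^ (K + 1) ≤ Real.exp X ^ (K + 1) := pow_le_pow_left₀ hypos.le hyX _
        _ = Real.exp (((K + 1 : ℕ) : ℝ) * X) := by rw [← Real.exp_nat_mul]
        _ ≤ Real.exp G := by
            apply Real.exp_le_exp.2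
            push_cast
            exact hKXG
    exact_mod_cast this
  have hyKpos : 0 < y ^ K := pow_pos (by omega) K
  have hyX0 : y ≤ N / y ^ K := (Nat.le_div_iff_mul_le hyKpos).2 hyK1
  have hlogy : Real.log y ≤ X := by
    rw [Real.log_le_iff_le_exp hypos]
    exact hyX
  have hlogy' : X / 2 ≤ Real.log y := by
    have h : Real.exp X / 2 ≤ y := by linarith
    have h2 := Real.log_le_log (by positivity) h
    rw [Real.log_div (Real.exp_pos _).ne' two_ne_zero, Real.log_exp] at h2
    linarith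
  have hll2 : x - 3 * Real.log x - Real.log 2 ≤ Real.log (Real.log y) := by
    have h := Real.log_le_log (by positivity) hlogy'
    have e1 : Real.log (X / 2) = x - 3 * Real.log x - Real.log 2 := by
      rw [Real.log_div hXp.ne' two_ne_zero, hX, Real.log_div hGp.ne' (by positivity),
        Real.log_pow, hxdef]
      norm_num
    linarith
  have hll3 : Real.log (Real.log y) ≤ x - 3 * Real.log x := by
    have h := Real.log_le_log (by linarith) hlogy
    have e1 : Real.log X = x - 3 * Real.log x := by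
      rw [hX, Real.log_div hGp.ne' (by positivity), Real.log_pow, hxdef]
      norm_num
    linarith
  have hWy := Pool.Agent.Helper16.UB.W_ge y hy2
  have hWz : W z ≤ Real.log x + Real.log 2 + C0 := by
    have h1 := hC0 z hz2
    have hz0 : (0 : ℝ) < z := by linarith
    have h2 : Real.log (Real.log z) ≤ Real.log z := by
      have h3 : 0 < Real.log z := Real.log_pos (by linarith)
      have := Real.log_le_sub_one_of_pos h3
      linarith
    have h3 : Real.log z ≤ Real.log x + Real.log 2 := by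
      rw [← Real.log_mul hxp.ne' two_ne_zero]
      exact Real.log_le_log hz0 (by linarith)
    linarith
  have hAx : A ≤ A * Real.log x := by nlinarith
  have hL1 : x - (4 + A) * Real.log x ≤ LL (PP z y) := by
    have h2 := W_le_LL z y
    nlinarith
  have hL2 : LL (PP z y) ≤ x := by
    have h1 := LL_le_W z y
    have h3 := hC0 y hy2
    nlinarith
  have hWX : W (N / y ^ K) ≤ x + C0 := by
    have h1 : W (N / y ^ K) ≤ W N := W_mono' (Nat.div_le_self _ _)
    have h2 := hC0 N (by omega)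
    rw [← hG, ← hxdef] at h2
    linarith
  refine ⟨z, y, K, hxz, hz2, hzy, hy2, hyX0, hL1, hL2, by linarith, ?_, ?_, ?_, ?_⟩
  · exact (mul_le_mul_of_nonneg_left hlogy (Nat.cast_nonneg _)).trans hKX
  · nlinarith
  · exact Nat.floor_le_floor (by linarith)
  · have h2K : (2 : ℝ) ^ K = Real.exp (K * Real.log 2) := by
      rw [mul_comm, Real.exp_mul, Real.exp_log two_pos, Real.rpow_natCast]
    rw [h2K, ← Real.exp_sub, le_div_iff₀ hxp]
    have h3 : (4 * x - 1) * Real.log 2 ≤ K * Real.log 2 :=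
      mul_le_mul_of_nonneg_right (by linarith) hlog2.le
    have h4 : LL (PP z y) - K * Real.log 2 ≤ Real.log 2 + -x := by
      have h5 : (2 : ℝ) ≤ 4 * Real.log 2 := by linarith
      nlinarith
    have h5 : Real.exp (LL (PP z y) - K * Real.log 2) ≤ 2 * Real.exp (-x) := by
      refine (Real.exp_le_exp.2 h4).trans (le_of_eq ?_)
      rw [Real.exp_add, Real.exp_log two_pos]
    exact (mul_le_mul_of_nonneg_right h5 hxp.le).trans f6

end Pool.Agent.Helper26.TF
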