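import Pool.Agent.Helper26.TF.ConvQ
import Pool.Agent.Helper26.TF.Params
import Pool.Agent.Helper26.TE.LowA
import Pool.Agent.Helper5.TP.Pois
import Pool.Agent.Helper5.TP.TdLe

/-!
# Project TF (MP_277c78_nt): the lower half with an error term
-/

set_option autoImplicit false

namespace Pool.Agent.Helper26.TF

open Finset Filter Topology
open Pool.Agent.Helper16.UB (Admissible M W ll)
open Pool.Agent.Helper26.TD
open Pool.Agent.Helper26.TE
open Pool.Agent.Helper5.TP (Phi shift_J head_ge td_le_C psi_var psi_anti)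

open Classical in
theorem lowQ_exact {r N z y K : ℕ} (hz : 2 ≤ z) (hzy : z ≤ y) (hyX : y ≤ N / y ^ K)
    (hK : ⌊2 * LL (PP z y)⌋₊ ≤ K) (hL : 0 < LL (PP z y)) :
    (1 - 2 / (z : ℝ)) * ((∑ c ∈ CF (PP z y) (N / y ^ K), 1 / (c : ℝ)) *
      (Phi (td r) (LL (PP z y)) - r * (Real.exp (LL (PP z y)) / LL (PP z y) ^ 2) -
        (W z + (W (N / y ^ K) - W y) + 1) * (((r : ℝ) ^ 2 + 1) *
          (Real.exp (LL (PP z y)) / (LL (PP z y) * √(LL (PP z y))))))) ≤
      ∑ n ∈ Icc 1 N, td r (ArithmeticFunction.cardFactors n) * (1 / (n : ℝ)) := by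
  refine le_trans ?_ (convQ (z := z) (y := y) (K := K))
  set P := PP z y with hP
  set L := LL P with hLdef
  set X := N / y ^ K with hX
  set S := ∑ c ∈ CF P X, 1 / (c : ℝ) with hS
  set Q := W z + (W X - W y) + 1 with hQ
  set E := ((r : ℝ) ^ 2 + 1) * (Real.exp L / (L * √L)) with hE
  have hE0 : 0 ≤ E := by positivity
  have hz' : 0 ≤ 1 - 2 / (z : ℝ) := by
    have hzR : (2 : ℝ) ≤ z := by exact_mod_cast hz
    have : 2 / (z : ℝ) ≤ 1 := by
      rw [div_le_one (by linarith)]
      exact hzR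
    linarith
  have h1 : ∀ c ∈ CF P X, 1 / (c : ℝ) * ((1 - 2 / (z : ℝ)) *
      (Phi (td r) L - r * (Real.exp L / L ^ 2) - ArithmeticFunction.cardFactors c * E)) ≤
      1 / (c : ℝ) * ∑ s ∈ P.powerset.filter (fun s => s.card ≤ K),
        td r (s.card + ArithmeticFunction.cardFactors c) * ∏ p ∈ s, 1 / (p : ℝ) := by
    intro c _
    refine mul_le_mul_of_nonneg_left ?_ (by positivity)
    refine le_trans (mul_le_mul_of_nonneg_left ?_ hz')
      (elem_sum (r := r) (J := ArithmeticFunction.cardFactors c) (by omega) hK)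
    refine le_trans ?_ (head_ge (td_nonneg r) (td_le_C r) hL _)
    have := shift_J hL (ArithmeticFunction.cardFactors c) (td_nonneg r) (td_le_C r)
    linarith
  refine le_trans ?_ (sum_le_sum h1)
  have h2 : ∑ c ∈ CF P X, 1 / (c : ℝ) * ((1 - 2 / (z : ℝ)) *
      (Phi (td r) L - r * (Real.exp L / L ^ 2) - ArithmeticFunction.cardFactors c * E)) =
      (1 - 2 / (z : ℝ)) * (S * (Phi (td r) L - r * (Real.exp L / L ^ 2)) -
        E * ∑ c ∈ CF P X, (ArithmeticFunction.cardFactors c : ℝ) * (1 / (c : ℝ))) := by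
    rw [hS, sum_mul, mul_sum, ← sum_sub_distrib, mul_sum]
    refine sum_congr rfl fun c _ => ?_
    ring
  rw [h2]
  refine mul_le_mul_of_nonneg_left ?_ hz'
  have h3 := mul_le_mul_of_nonneg_left (om_moment hzy hyX) hE0
  rw [← hQ, ← hS] at h3
  have e1 : S * (Phi (td r) L - r * (Real.exp L / L ^ 2) - Q * E) =
      S * (Phi (td r) L - r * (Real.exp L / L ^ 2)) - E * (Q * S) := by ring
  rw [e1]
  linarith

/-- `log x / √x → 0` -/
theorem small_h {η : ℝ} (hη : 0 < η) : ∀ᶠ x : ℝ in atTop, Real.log x / √x ≤ η := by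
  have h1 : ∀ᶠ x : ℝ in atTop, ‖Real.log x‖ ≤ η * ‖x ^ (1 / 2 : ℝ)‖ :=
    (isLittleO_log_rpow_atTop (show (0 : ℝ) < 1 / 2 by norm_num)).def hη
  filter_upwards [h1, eventually_ge_atTop 1] with x hx1 hx2
  rw [Real.norm_of_nonneg (Real.log_nonneg hx2),
    Real.norm_of_nonneg (Real.rpow_nonneg (by linarith) _), ← Real.sqrt_eq_rpow] at hx1
  rwa [div_le_iff₀ (Real.sqrt_pos.2 (by linarith))]

theorem one_div_le_h {x : ℝ} (hx : 3 ≤ x) : 1 / x ≤ Real.log x / √x := by
  have hx0 : 0 < x := by linarith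
  have h1 : 1 ≤ Real.log x := by
    rw [Real.le_log_iff_exp_le hx0]
    have := Real.exp_one_lt_d9
    linarith
  have h2 : √x ≤ x := by
    rw [Real.sqrt_le_left hx0.le]
    nlinarith
  rw [div_le_div_iff₀ hx0 (Real.sqrt_pos.2 hx0)]
  nlinarith

theorem log_X0 {N y K : ℕ} {x : ℝ} (hN : 3 ≤ N) (hx : 3 ≤ x) (hGx : Real.exp x = Real.log N)
    (hy : 2 ≤ y) (hyX : y ≤ N / y ^ K)
    (hK : (K : ℝ) * Real.log y ≤ 4 * Real.log N / x ^ 2) :
    (1 - 5 / x) * Real.log N ≤ Real.log ((N / y ^ K : ℕ) : ℝ) := by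
  have hNR : (3 : ℝ) ≤ N := by exact_mod_cast hN
  have hNpos : (0 : ℝ) < N := by linarith
  have hypos : (0 : ℝ) < y := by exact_mod_cast (by omega : 0 < y)
  have hyKpos : 0 < y ^ K := pow_pos (by omega) K
  have hx0 : 0 < x := by linarith
  set G := Real.log N with hG
  have hGp : 0 < G := Real.log_pos (by linarith)
  have h1 : (N : ℝ) / (y : ℝ) ^ K / 2 ≤ ((N / y ^ K : ℕ) : ℝ) := by
    have h2 : (2 : ℝ) ≤ ((N / y ^ K : ℕ) : ℝ) := by
      have : 2 ≤ N / y ^ K := hy.trans hyX
      exact_mod_cast this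
    have h3 : (N : ℝ) / (y : ℝ) ^ K < ((N / y ^ K : ℕ) : ℝ) + 1 := by
      rw [div_lt_iff₀ (by positivity)]
      have := Nat.lt_div_mul_add (a := N) hyKpos
      have h4 : N < (N / y ^ K + 1) * y ^ K := by
        calc N < N / y ^ K * y ^ K + y ^ K := this
          _ = (N / y ^ K + 1) * y ^ K := by ring
      exact_mod_cast h4
    linarith
  have h2 := Real.log_le_log (by positivity) h1
  rw [Real.log_div (by positivity) two_ne_zero, Real.log_div hNpos.ne' (by positivity),
    Real.log_pow, ← hG] at h2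
  have h4 : 4 * G / x ^ 2 ≤ 2 / x * G := by
    have h5 : 4 / x ^ 2 ≤ 2 / x := by
      rw [div_le_div_iff₀ (by positivity) hx0]
      nlinarith
    have := mul_le_mul_of_nonneg_right h5 hGp.le
    refine le_trans (le_of_eq ?_) this
    ring
  have h5 : Real.log 2 ≤ 3 / x * G := by
    have h6 : x + 1 ≤ G := by
      rw [← hGx]
      exact Real.add_one_le_exp x
    have h7 : 1 ≤ 1 / x * G := by
      rw [one_div, ← div_eq_inv_mul, le_div_iff₀ hx0]
      linarith
    have h8 := Real.log_two_lt_d9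
    have h9 : 3 / x * G = 3 * (1 / x * G) := by ring
    rw [h9]
    linarith
  have h6 : (1 - 5 / x) * G = G - 2 / x * G - 3 / x * G := by ring
  rw [h6]
  linarith

theorem low_rate {r : ℕ} (hr : 2 ≤ r) : ∃ C : ℝ, 0 < C ∧ ∀ᶠ N : ℕ in atTop,
    (1 - C * (Real.log (ll N) / √(ll N))) * GG (td r) (ll N) ≤
      ∑ n ∈ Icc 1 N, td r (ArithmeticFunction.cardFactors n) * (1 / (n : ℝ)) := by
  obtain ⟨B, hB0, hpar⟩ := params
  obtain ⟨c, hc, k1, hk1⟩ := td_ge hr
  obtain ⟨l2, hl2⟩ := GG_low (td_nonneg r) (td_le_one r) (td_anti r) hc hk1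
  set C1 := 32 * ((r : ℝ) + B * ((r : ℝ) ^ 2 + 1)) / c with hC1
  have hC1p : 0 < C1 := by
    have : 0 < (r : ℝ) ^ 2 + 1 := by positivity
    positivity
  refine ⟨8 + C1, by positivity, ?_⟩
  have hll := Pool.Agent.Helper16.UB.tendsto_ll
  filter_upwards [hpar, hll.eventually_ge_atTop l2,
    hll.eventually (small_h (show 0 < 1 / (8 + C1) by positivity))] with N hN hxl2 hh
  obtain ⟨hx3, hN3, z, y, K, p1, p2, p3, p4, p5, p6, p7, p8, p9, p10, p11, p12⟩ := hN
  set x := ll N with hx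
  have hxp : 0 < x := by linarith
  have hNR : (3 : ℝ) ≤ N := by exact_mod_cast hN3
  set G := Real.log N with hG
  have hGp : 0 < G := Real.log_pos (by linarith)
  have hGx : Real.exp x = G := by rw [hx, ll, Real.exp_log hGp]
  set h := Real.log x / √x with hhdef
  have h1x := one_div_le_h hx3
  rw [← hhdef] at h1x
  have hh0 : 0 < h := lt_of_lt_of_le (by positivity) h1x
  set L := LL (PP z y) with hL
  have hLp : 0 < L := lt_of_lt_of_le (by linarith) p8
  have hlx : 0 < Real.log x := Real.log_pos (by linarith)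
  have hex := lowQ_exact (r := r) p2 p3 p5 p11 hLp
  rw [← hL] at hex
  refine le_trans ?_ hex
  set S := ∑ c ∈ CF (PP z y) (N / y ^ K), 1 / (c : ℝ) with hS
  set Q := W z + (W (N / y ^ K) - W y) + 1 with hQ
  set D := (r : ℝ) ^ 2 + 1 with hD
  have hDp : 0 < D := by positivity
  set ψ := Real.exp (-x) * GG (td r) x with hψ
  have hψ1 : c / (8 * x) ≤ ψ := hl2 x hxl2
  have hψp : 0 < ψ := lt_of_lt_of_le (by positivity) hψ1
  have hψG : ψ * G = GG (td r) x := by
    rw [hψ, ← hGx, mul_comm (Real.exp (-x)), mul_assoc, ← Real.exp_add]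
    simp
  -- `1 / x ≤ 8 ψ / c`
  have hxψ : 1 / x ≤ 8 / c * ψ := by
    have := mul_le_mul_of_nonneg_left hψ1 (show 0 ≤ 8 / c by positivity)
    refine le_trans (le_of_eq ?_) this
    field_simp
  -- the bracket
  have hbr : Real.exp L * (ψ * (1 - C1 * h)) ≤
      Phi (td r) L - r * (Real.exp L / L ^ 2) - Q * (D * (Real.exp L / (L * √L))) := by
    have h2 : ψ ≤ Real.exp (-L) * Phi (td r) L :=
      psi_anti (td_nonneg r) (td_le_C r) (td_anti r) hLp.le p7
    have h3 : Real.exp L * ψ ≤ Phi (td r) L := by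
      have := mul_le_mul_of_nonneg_left h2 (Real.exp_pos L).le
      refine this.trans (le_of_eq ?_)
      rw [← mul_assoc, ← Real.exp_add]
      simp
    have h4 : (r : ℝ) * (Real.exp L / L ^ 2) ≤ Real.exp L * (4 * r * (1 / x) * (8 / c * ψ)) := by
      have h5 : 1 / L ^ 2 ≤ 4 * (1 / x) * (1 / x) := by
        have h6 : (x / 2) ^ 2 ≤ L ^ 2 := pow_le_pow_left₀ (by linarith) p8 2
        have h7 : 1 / L ^ 2 ≤ 1 / (x / 2) ^ 2 := one_div_le_one_div_of_le (by positivity) h6
        refine h7.trans (le_of_eq ?_)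
        field_simp
        norm_num
      have h6 : 4 * (1 / x) * (1 / x) ≤ 4 * (1 / x) * (8 / c * ψ) :=
        mul_le_mul_of_nonneg_left hxψ (by positivity)
      have h7 := mul_le_mul_of_nonneg_left (h5.trans h6)
        (show 0 ≤ (r : ℝ) * Real.exp L by positivity)
      refine le_trans (le_of_eq ?_) (h7.trans (le_of_eq ?_)) <;> ring
    have h5 : Q * (D * (Real.exp L / (L * √L))) ≤
        Real.exp L * (4 * (B * D) * h * (8 / c * ψ)) := by
      have h6 : Real.exp L / (L * √L) ≤ Real.exp L * (4 / (x * √x)) := by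
        have h7 : x * √x / 4 ≤ L * √L := by
          have h8 : √x / 2 ≤ √L := by
            have : √x / 2 = √(x / 4) := by
              rw [Real.sqrt_div hxp.le, show (4 : ℝ) = 2 ^ 2 by norm_num,
                Real.sqrt_sq (by norm_num)]
            rw [this]
            exact Real.sqrt_le_sqrt (by linarith)
          have h9 := mul_le_mul p8 h8 (by positivity) hLp.le
          refine le_trans (le_of_eq ?_) h9
          ring
        have h8 : 1 / (L * √L) ≤ 1 / (x * √x / 4) := one_div_le_one_div_of_le (by positivity) h7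
        have h9 := mul_le_mul_of_nonneg_left h8 (Real.exp_pos L).le
        refine le_trans (le_of_eq ?_) (h9.trans (le_of_eq ?_))
        · ring
        · field_simp
      have h7 : Q * (D * (Real.exp L / (L * √L))) ≤
          (B * Real.log x) * (D * (Real.exp L * (4 / (x * √x)))) := by
        apply mul_le_mul p10 _ (by positivity) (by positivity)
        exact mul_le_mul_of_nonneg_left h6 hDp.le
      refine h7.trans ?_
      have h8 : (B * Real.log x) * (D * (Real.exp L * (4 / (x * √x)))) =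
          Real.exp L * (4 * (B * D) * h * (1 / x)) := by
        rw [hhdef]
        have : √x ≠ 0 := (Real.sqrt_pos.2 hxp).ne'
        field_simp
      rw [h8]
      apply mul_le_mul_of_nonneg_left _ (Real.exp_pos L).le
      exact mul_le_mul_of_nonneg_left hxψ (by positivity)
    have h6 : Real.exp L * (4 * r * (1 / x) * (8 / c * ψ)) ≤
        Real.exp L * (4 * r * h * (8 / c * ψ)) := by
      apply mul_le_mul_of_nonneg_left _ (Real.exp_pos L).le
      apply mul_le_mul_of_nonneg_right _ (by positivity)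
      exact mul_le_mul_of_nonneg_left h1x (by positivity)
    have h7 : Real.exp L * (ψ * (1 - C1 * h)) = Real.exp L * ψ -
        Real.exp L * (4 * r * h * (8 / c * ψ)) - Real.exp L * (4 * (B * D) * h * (8 / c * ψ)) := by
      rw [hC1]
      field_simp
      ring
    rw [h7]
    linarith
  have hCh : (8 + C1) * h ≤ 1 := by
    have := mul_le_mul_of_nonneg_left hh (show 0 ≤ 8 + C1 by positivity)
    refine this.trans (le_of_eq ?_)
    field_simp
  have hC1h : 0 ≤ 1 - C1 * h := by nlinarith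
  -- the sum over `c`
  have hz0 : (0 : ℝ) < z := by linarith
  have h1z : 1 / (z : ℝ) ≤ h := (one_div_le_one_div_of_le hxp p1).trans h1x
  have h5x : 5 / x ≤ 5 * h := by
    have : 5 / x = 5 * (1 / x) := by ring
    rw [this]
    linarith
  have h5 : 0 ≤ 1 - 5 * h := by nlinarith
  have hSge : (1 - 5 * h) * G * (Real.exp (-L) * (1 - h)) ≤ S := by
    have h2 := cf_ge (z := z) (y := y) (X := N / y ^ K) (by omega)
    rw [← hL, ← hS] at h2
    refine le_trans ?_ h2
    have h3 := log_X0 hN3 hx3 hGx p4 p5 p9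
    have h4 : (1 - 5 * h) * G ≤ Real.log ((N / y ^ K : ℕ) : ℝ) := by
      refine le_trans ?_ h3
      exact mul_le_mul_of_nonneg_right (by linarith) hGp.le
    have h6 : Real.exp (-L) * (1 - h) ≤ Real.exp (-L - 1 / (z : ℝ)) := by
      rw [sub_eq_add_neg (-L), Real.exp_add]
      apply mul_le_mul_of_nonneg_left _ (Real.exp_pos _).le
      have := Real.add_one_le_exp (-(1 / (z : ℝ)))
      linarith
    exact mul_le_mul h4 h6 (mul_nonneg (Real.exp_pos _).le (by nlinarith))
      ((mul_nonneg h5 hGp.le).trans h4)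
  have hbr0 : 0 ≤ Real.exp L * (ψ * (1 - C1 * h)) := by positivity
  have hSb : (1 - 5 * h) * G * (Real.exp (-L) * (1 - h)) * (Real.exp L * (ψ * (1 - C1 * h))) ≤
      S * (Phi (td r) L - r * (Real.exp L / L ^ 2) - Q * (D * (Real.exp L / (L * √L)))) := by
    refine mul_le_mul hSge hbr hbr0 ?_
    exact sum_nonneg fun _ _ => by positivity
  have h2z : 1 - 2 * h ≤ 1 - 2 / (z : ℝ) := by
    have : 2 / (z : ℝ) = 2 * (1 / (z : ℝ)) := by ring
    rw [this]
    linarith
  have h2h : 0 ≤ 1 - 2 * h := by nlinarith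
  have h1h : 0 ≤ 1 - h := by nlinarith
  have hfin : (1 - 2 * h) * ((1 - 5 * h) * G * (Real.exp (-L) * (1 - h)) *
      (Real.exp L * (ψ * (1 - C1 * h)))) ≤ (1 - 2 / (z : ℝ)) *
      (S * (Phi (td r) L - r * (Real.exp L / L ^ 2) - Q * (D * (Real.exp L / (L * √L))))) := by
    refine mul_le_mul h2z hSb (by positivity) (h2h.trans h2z)
  refine le_trans ?_ hfin
  have he : (1 - 2 * h) * ((1 - 5 * h) * G * (Real.exp (-L) * (1 - h)) *
      (Real.exp L * (ψ * (1 - C1 * h)))) =
      ((1 - 2 * h) * (1 - 5 * h) * (1 - h) * (1 - C1 * h)) * (ψ * G) := by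
    have : Real.exp (-L) * Real.exp L = 1 := by rw [← Real.exp_add]; simp
    linear_combination ((1 - 2 * h) * (1 - 5 * h) * G * (1 - h) * ψ * (1 - C1 * h)) * this
  rw [he, hψG]
  refine mul_le_mul_of_nonneg_right ?_ (GG_nonneg (td_nonneg r) hxp.le)
  have a1 : 1 - 7 * h ≤ (1 - 2 * h) * (1 - 5 * h) := by nlinarith
  have a2 : 1 - 8 * h ≤ (1 - 7 * h) * (1 - h) := by nlinarith
  have a7 : 0 ≤ 1 - 7 * h := by nlinarith
  have a8 : 0 ≤ 1 - 8 * h := by nlinarith
  have a3 : 1 - (8 + C1) * h ≤ (1 - 8 * h) * (1 - C1 * h) := by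
    have : 0 ≤ 8 * h * (C1 * h) := by positivity
    nlinarith
  calc 1 - (8 + C1) * h ≤ (1 - 8 * h) * (1 - C1 * h) := a3
    _ ≤ (1 - 2 * h) * (1 - 5 * h) * (1 - h) * (1 - C1 * h) := by
        apply mul_le_mul_of_nonneg_right _ hC1h
        exact a2.trans (mul_le_mul_of_nonneg_right a1 h1h)

end Pool.Agent.Helper26.TF
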