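import Pool.Agent.Helper26.TF.LowQ
import Pool.Agent.Helper26.TE.Split2
import Pool.Agent.Helper26.TD.Tails

/-!
# Project TF (MP_277c78_nt): the upper half with an error term
-/

set_option autoImplicit false

namespace Pool.Agent.Helper26.TF

open Finset Filter Topology
open Pool.Agent.Helper16.UB (Admissible M W ll)
open Pool.Agent.Helper26.TD
open Pool.Agent.Helper26.TE
open Pool.Agent.Helper5.TP (Phi shift_J head_ge td_le_C psi_var psi_anti)

theorem up_rate {r : ℕ} (hr : 2 ≤ r) : ∃ C : ℝ, 0 < C ∧ ∀ᶠ N : ℕ in atTop,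
    M r N ≤ (1 + C * (Real.log (ll N) / √(ll N))) * GG (td r) (ll N) := by
  obtain ⟨B, hB0, hpar⟩ := params
  obtain ⟨c, hc, k1, hk1⟩ := td_ge hr
  obtain ⟨l2, hl2⟩ := GG_low (td_nonneg r) (td_le_one r) (td_anti r) hc hk1
  have hD : 0 < (r : ℝ) ^ 2 + 1 := by positivity
  set D := (r : ℝ) ^ 2 + 1 with hDdef
  set C1 := 32 * (B * D) / c with hC1
  set C2 := 48 / c with hC2
  have hC1p : 0 < C1 := by positivity
  have hC2p : 0 < C2 := by positivity
  refine ⟨29 + 30 * C1 + 3 * C2, by positivity, ?_⟩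
  have hll := Pool.Agent.Helper16.UB.tendsto_ll
  filter_upwards [hpar, hll.eventually_ge_atTop l2,
    hll.eventually (small_h (show (0 : ℝ) < 1 / 8 by norm_num))] with N hN hxl2 hh
  obtain ⟨hx3, hN3, z, y, K, p1, p2, p3, p4, p5, p6, p7, p8, p9, p10, p11, p12⟩ := hN
  set x := ll N with hx
  have hxp : 0 < x := by linarith
  have hNR : (3 : ℝ) ≤ N := by exact_mod_cast hN3
  set G := Real.log N with hG
  have hGp : 0 < G := Real.log_pos (by linarith)
  have hGx : Real.exp x = G := by rw [hx, ll, Real.exp_log hGp]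
  set h := Real.log x / √x with hhdef
  have h1x := one_div_le_h hx3
  rw [← hhdef] at h1x
  have hh0 : 0 < h := lt_of_lt_of_le (by positivity) h1x
  set L := LL (PP z y) with hL
  have hLp : 0 < L := lt_of_lt_of_le (by linarith) p8
  have hlx : 0 < Real.log x := Real.log_pos (by linarith)
  have hne : (PP z y).Nonempty := by
    rw [Finset.nonempty_iff_ne_empty]
    intro h
    rw [hL, h] at hLp
    simp [LL] at hLp
  have hs := split2 (N := N) (K := K) hr (show 1 ≤ z by omega) hne
  rw [← hL, ← hG] at hs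
  set ψ := Real.exp (-x) * GG (td r) x with hψ
  have hψ1 : c / (8 * x) ≤ ψ := hl2 x hxl2
  have hψp : 0 < ψ := lt_of_lt_of_le (by positivity) hψ1
  have hψG : ψ * G = GG (td r) x := by
    rw [hψ, ← hGx, mul_comm (Real.exp (-x)), mul_assoc, ← Real.exp_add]
    simp
  have hxψ : 1 / x ≤ 8 / c * ψ := by
    have := mul_le_mul_of_nonneg_left hψ1 (show 0 ≤ 8 / c by positivity)
    refine le_trans (le_of_eq ?_) this
    field_simp
  set ψL := Real.exp (-L) * GG (td r) L with hψL
  have hψL0 : 0 ≤ ψL := mul_nonneg (Real.exp_pos _).le (GG_nonneg (td_nonneg r) hLp.le)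
  have hψLE : GG (td r) L = ψL * Real.exp L := by
    rw [hψL, mul_comm (Real.exp (-L)), mul_assoc, ← Real.exp_add]
    simp
  rw [hψLE] at hs
  -- `ψL ≤ ψ (1 + C1 h)`
  have hψ2 : ψL ≤ ψ * (1 + C1 * h) := by
    have h1 : ψL ≤ ψ + D * ((x - L) / (L * √L)) :=
      psi_var (td_nonneg r) (td_le_C r) hLp p7
    have h2 : (x - L) / (L * √L) ≤ 4 * B * h * (1 / x) := by
      have h7 : x * √x / 4 ≤ L * √L := by
        have h8 : √x / 2 ≤ √L := by
          have : √x / 2 = √(x / 4) := by
            rw [Real.sqrt_div hxp.le, show (4 : ℝ) = 2 ^ 2 by norm_num,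
              Real.sqrt_sq (by norm_num)]
          rw [this]
          exact Real.sqrt_le_sqrt (by linarith)
        have h9 := mul_le_mul p8 h8 (by positivity) hLp.le
        refine le_trans (le_of_eq ?_) h9
        ring
      have h8 : x - L ≤ B * Real.log x := by linarith
      have h9 : (x - L) / (L * √L) ≤ (B * Real.log x) / (x * √x / 4) := by
        apply div_le_div₀ (by positivity) h8 (by positivity) h7
      refine h9.trans (le_of_eq ?_)
      rw [hhdef]
      have : √x ≠ 0 := (Real.sqrt_pos.2 hxp).ne'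
      field_simp
    have h3 : D * ((x - L) / (L * √L)) ≤ D * (4 * B * h * (8 / c * ψ)) := by
      apply mul_le_mul_of_nonneg_left _ hD.le
      exact h2.trans (mul_le_mul_of_nonneg_left hxψ (by positivity))
    have h4 : ψ * (1 + C1 * h) = ψ + D * (4 * B * h * (8 / c * ψ)) := by
      rw [hC1]
      field_simp
      ring
    rw [h4]
    linarith
  -- the lower bound for `DD`
  have hDD := DD_ge (z := z) (y := y) (K := K) (by omega)
  rw [← hL] at hDD
  have hz0 : (0 : ℝ) < z := by linarith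
  have h1z : 1 / (z : ℝ) ≤ h := (one_div_le_one_div_of_le hxp p1).trans h1x
  have hDD2 : Real.exp L * (1 - 2 * h) ≤ DD (PP z y) K := by
    refine le_trans ?_ hDD
    have e1 : Real.exp (2 * L) / 2 ^ K = Real.exp L * (Real.exp L / 2 ^ K) := by
      rw [two_mul, Real.exp_add]
      ring
    rw [e1, ← mul_sub]
    apply mul_le_mul_of_nonneg_left _ (Real.exp_pos L).le
    have := Real.add_one_le_exp (-(1 / (z : ℝ)))
    linarith
  have hd : 0 < 1 - 2 * h := by linarith
  have hDDp : 0 < DD (PP z y) K := lt_of_lt_of_le (mul_pos (Real.exp_pos L) hd) hDD2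
  set Y := Real.log ((y : ℝ) ^ K) with hY
  have hYle : Y ≤ 4 * G / x ^ 2 := by
    rw [hY, Real.log_pow]
    exact p9
  -- divide by `DD`
  have h8 : M r N * (1 - 1 / (z : ℝ)) ≤ (1 + G) * ψL * (1 + 4 * h) + (1 + Y) := by
    have h9 : (1 + G) * (ψL * Real.exp L) ≤ (1 + G) * ψL * (1 + 4 * h) * DD (PP z y) K := by
      have h10 : 1 ≤ (1 + 4 * h) * (1 - 2 * h) := by nlinarith
      have h11 : Real.exp L ≤ (1 + 4 * h) * DD (PP z y) K := by
        calc Real.exp L = Real.exp L * 1 := by ring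
          _ ≤ Real.exp L * ((1 + 4 * h) * (1 - 2 * h)) :=
              mul_le_mul_of_nonneg_left h10 (Real.exp_pos L).le
          _ = (1 + 4 * h) * (Real.exp L * (1 - 2 * h)) := by ring
          _ ≤ _ := mul_le_mul_of_nonneg_left hDD2 (by linarith)
      have h12 := mul_le_mul_of_nonneg_left h11 (show 0 ≤ (1 + G) * ψL by positivity)
      refine le_trans (le_of_eq ?_) (h12.trans (le_of_eq ?_)) <;> ring
    have h12 : M r N * (1 - 1 / (z : ℝ)) * DD (PP z y) K ≤
        ((1 + G) * ψL * (1 + 4 * h) + (1 + Y)) * DD (PP z y) K := by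
      rw [add_mul]
      linarith
    exact le_of_mul_le_mul_right h12 hDDp
  -- `1 + G ≤ G (1 + h)`
  have hG1 : 1 + G ≤ G * (1 + h) := by
    have h9 : x + 1 ≤ G := by
      rw [← hGx]
      exact Real.add_one_le_exp x
    have h10 : 1 ≤ G * (1 / x) := by
      rw [mul_one_div, le_div_iff₀ hxp]
      linarith
    have h11 : G * (1 / x) ≤ G * h := mul_le_mul_of_nonneg_left h1x hGp.le
    linarith
  have hG2 : 1 + Y ≤ C2 * h * (ψ * G) := by
    have h9 : x ^ 2 / 2 ≤ G := by
      have := Real.quadratic_le_exp_of_nonneg hxp.le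
      rw [hGx] at this
      linarith
    have h10 : 1 ≤ 2 * G / x ^ 2 := by
      rw [le_div_iff₀ (by positivity)]
      linarith
    have h11 : 1 + Y ≤ 6 * G * (1 / x) * (1 / x) := by
      have e1 : 6 * G * (1 / x) * (1 / x) = 2 * G / x ^ 2 + 4 * G / x ^ 2 := by
        field_simp
        ring
      rw [e1]
      linarith
    have h12 : 6 * G * (1 / x) * (1 / x) ≤ 6 * G * h * (8 / c * ψ) := by
      apply mul_le_mul _ hxψ (by positivity) (by positivity)
      exact mul_le_mul_of_nonneg_left h1x (by positivity)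
    refine h11.trans (h12.trans (le_of_eq ?_))
    rw [hC2]
    ring
  have h9 : (1 + G) * ψL * (1 + 4 * h) ≤
      (G * (1 + h)) * (ψ * (1 + C1 * h)) * (1 + 4 * h) := by
    apply mul_le_mul_of_nonneg_right _ (by linarith)
    exact mul_le_mul hG1 hψ2 hψL0 (by positivity)
  have hh1 : h ≤ 1 := by linarith
  have h10 : M r N * (1 - 1 / (z : ℝ)) ≤ (1 + (9 + 10 * C1 + C2) * h) * (ψ * G) := by
    have h11 : (1 + h) * (1 + C1 * h) * (1 + 4 * h) ≤ 1 + (9 + 10 * C1) * h := by
      have a1 : (1 + h) * (1 + 4 * h) ≤ 1 + 9 * h := by nlinarith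
      have a2 : (1 + 9 * h) * (1 + C1 * h) ≤ 1 + (9 + 10 * C1) * h := by
        have : h * (C1 * h) ≤ 1 * (C1 * h) := mul_le_mul_of_nonneg_right hh1 (by positivity)
        nlinarith
      calc (1 + h) * (1 + C1 * h) * (1 + 4 * h) = ((1 + h) * (1 + 4 * h)) * (1 + C1 * h) := by ring
        _ ≤ (1 + 9 * h) * (1 + C1 * h) := mul_le_mul_of_nonneg_right a1 (by positivity)
        _ ≤ _ := a2
    have h12 : (G * (1 + h)) * (ψ * (1 + C1 * h)) * (1 + 4 * h) =
        ((1 + h) * (1 + C1 * h) * (1 + 4 * h)) * (ψ * G) := by ring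
    rw [h12] at h9
    have h13 := mul_le_mul_of_nonneg_right h11 (show 0 ≤ ψ * G by positivity)
    have h14 : (1 + (9 + 10 * C1 + C2) * h) * (ψ * G) =
        (1 + (9 + 10 * C1) * h) * (ψ * G) + C2 * h * (ψ * G) := by ring
    rw [h14]
    linarith
  -- divide by `1 - 1 / z`
  have h13 : 1 ≤ (1 - 1 / (z : ℝ)) * (1 + 2 * h) := by
    have : 1 - h ≤ 1 - 1 / (z : ℝ) := by linarith
    have h2 := mul_le_mul_of_nonneg_right this (show 0 ≤ 1 + 2 * h by linarith)
    nlinarith
  have hM0 : 0 ≤ M r N := Pool.Agent.Helper34.RB.M_nonneg r N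
  have h14 : M r N ≤ M r N * (1 - 1 / (z : ℝ)) * (1 + 2 * h) := by
    have := mul_le_mul_of_nonneg_left h13 hM0
    linarith
  have h15 := mul_le_mul_of_nonneg_right h10 (show 0 ≤ 1 + 2 * h by linarith)
  refine h14.trans (h15.trans ?_)
  rw [← hψG]
  have h16 : (1 + (9 + 10 * C1 + C2) * h) * (1 + 2 * h) ≤
      1 + (29 + 30 * C1 + 3 * C2) * h := by
    have hA : 0 ≤ (9 + 10 * C1 + C2) * h := by positivity
    have : (9 + 10 * C1 + C2) * h * h ≤ (9 + 10 * C1 + C2) * h * 1 :=
      mul_le_mul_of_nonneg_left hh1 hA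
    nlinarith
  have h17 := mul_le_mul_of_nonneg_right h16 (show 0 ≤ ψ * G by positivity)
  refine le_trans (le_of_eq ?_) h17
  ring

end Pool.Agent.Helper26.TF
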